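import Pool.Agent.Lib.MP_eb394a_al.Bridge

/-!
Q1 is false: for `k = 4` there is no finite collection `Λ` of Young diagrams with
`B_4(T(V)) ≅ ⨁_{λ ∈ Λ} 𝒢_λ(V)`.
-/

set_option autoImplicit false

universe u

open Pool.Agent.Lib.MP_eb394a_al.Stmt in
/-- Over every field of characteristic zero, `B_4(T(V))` is not isomorphic, as an abstract Schur
functor, to a finite direct sum of functors `𝒢_λ`. -/
theorem Pool.Agent.Results.MP_eb394a_al.NoDecompositionB4.result
    (K : Type u) [Field K] [CharZero K] :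
    ¬ ∃ (r : ℕ) (Λ : Fin r → YoungDiagram), Decomposes K 4 Λ := by
  rintro ⟨r, Λ, h⟩
  exact Pool.Agent.Lib.MP_eb394a_al.stmt_not_decomposes K Λ h
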